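import Pool.Agent.H29.DPC.S2

/-!
# DPC, module AUX
-/

set_option autoImplicit false

namespace Pool.DPC

open Polynomial Complex

theorem t_aux : AUXStmt := by
  classical
  intro n q hq hqn p hp
  have hpp : (p : ℕ).Prime := p.2
  have : Fact (p : ℕ).Prime := ⟨hpp⟩
  have hdv : 4 * q ∣ (p : ℕ) - 1 := by
    have h1 := Nat.div_add_mod (p : ℕ) (4 * q)
    rw [hp] at h1
    exact ⟨(p : ℕ) / (4 * q), by omega⟩
  have hq1 : q ∣ Fintype.card (ZMod (p : ℕ)) - 1 := by
    rw [ZMod.card]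
    exact (Dvd.intro_left 4 rfl).trans hdv
  have hζ : IsPrimitiveRoot (Complex.exp (2 * Real.pi * Complex.I / q)) q :=
    Complex.isPrimitiveRoot_exp q hq.ne_zero
  obtain ⟨ψ, hψ⟩ := MulChar.exists_mulChar_orderOf (ZMod (p : ℕ)) hq1 hζ
  have hψq : ψ ^ q = 1 := by rw [← hψ, pow_orderOf_eq_one]
  have hψ1 : ψ ≠ 1 := by
    intro h
    rw [h, orderOf_one] at hψ
    exact hq.one_lt.ne hψ
  have hm1 : ψ (-1) = 1 := by
    have hu : ∀ x : (ZMod (p : ℕ))ˣ, ψ (x : ZMod (p : ℕ)) ^ q = 1 := fun x => by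
      rw [← MulChar.pow_apply_coe, hψq, MulChar.one_apply_coe]
    have h2 : ψ (-1) ^ 2 = 1 := by
      rw [← map_pow, neg_one_sq, map_one]
    rcases hq.eq_two_or_odd' with h | h
    · have h4 : (p : ℕ) % 4 ≠ 3 := by
        obtain ⟨c, hc⟩ := hdv
        have := hpp.one_lt
        rw [h] at hc
        omega
      obtain ⟨y, hy⟩ := ZMod.exists_sq_eq_neg_one_iff.mpr h4
      have hy0 : y ≠ 0 := by
        rintro rfl
        rw [mul_zero] at hy
        exact (neg_ne_zero.mpr one_ne_zero) hy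
      have h5 := hu (Units.mk0 y hy0)
      rw [Units.val_mk0, h, sq, ← map_mul, ← hy] at h5
      exact h5
    · obtain ⟨c, hc⟩ := h
      have h5 := hu (-1)
      rw [Units.val_neg, Units.val_one, hc, pow_succ, pow_mul, h2, one_pow, one_mul] at h5
      exact h5
  obtain ⟨χ, hχ⟩ : ∃ χ : Ch, χ = Pi.mulSingle p ψ := ⟨_, rfl⟩
  have hχp : χ p = ψ := by rw [hχ, Pi.mulSingle_eq_same]
  have hχl : ∀ l, l ≠ p → χ l = 1 := fun l hl => by rw [hχ, Pi.mulSingle_eq_of_ne hl]
  have hs : sup χ = {p} := by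
    ext l
    simp only [sup, Set.mem_singleton_iff]
    constructor
    · intro h
      by_contra h1
      exact h (hχl l h1)
    · rintro rfl
      change χ l ≠ 1
      rw [hχp]
      exact hψ1
  have ho : orderOf χ = q := by
    rw [hχ]
    have hinj : Function.Injective (MonoidHom.mulSingle (fun l : Nat.Primes =>
        DirichletCharacter ℂ (l : ℕ)) p) := by
      intro a b h
      have h1 := congrFun h p
      rw [MonoidHom.mulSingle_apply, MonoidHom.mulSingle_apply, Pi.mulSingle_eq_same,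
        Pi.mulSingle_eq_same] at h1
      exact h1
    have h1 := orderOf_injective (MonoidHom.mulSingle (fun l : Nat.Primes =>
      DirichletCharacter ℂ (l : ℕ)) p) hinj ψ
    rw [← hψ]
    exact h1
  refine ⟨χ, ⟨?_, ?_, ?_⟩, hs, ho⟩
  · rw [hs]
    exact Set.finite_singleton p
  · rw [← orderOf_dvd_iff_pow_eq_one, ho]
    exact hqn
  · rw [finprod_eq_single _ p, hχp, hm1]
    intro l hl
    rw [hχl l hl]
    have h1 := MulChar.one_apply_coe (R' := ℂ) (-1 : (ZMod (l : ℕ))ˣ)
    rw [Units.val_neg, Units.val_one] at h1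
    exact h1

end Pool.DPC
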