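import Pool.Agent.H29.DPC.S2

/-!
# DPC, module EVP
-/

set_option autoImplicit false

namespace Pool.DPC

open Polynomial Complex

namespace EvpN

theorem unit_of (l : Nat.Primes) (a : ℕ) (h : ¬ (l : ℕ) ∣ a) :
    ∃ u : (ZMod (l : ℕ))ˣ, (u : ZMod (l : ℕ)) = (a : ZMod (l : ℕ)) := by
  have h1 : Nat.Coprime a (l : ℕ) := ((Nat.Prime.coprime_iff_not_dvd l.2).mpr h).symm
  exact ⟨ZMod.unitOfCoprime a h1, ZMod.coe_unitOfCoprime a h1⟩

theorem sup_of_ne {φ : Ch} {l : Nat.Primes} {x : (ZMod (l : ℕ))ˣ}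
    (h : φ l (x : ZMod (l : ℕ)) ≠ 1) : l ∈ sup φ := by
  intro h1
  rw [h1, MulChar.one_apply_coe] at h
  exact h rfl

theorem ev_prod (φ : Ch) (C : Finset Nat.Primes) (a : ℕ) (h : sup φ ⊆ C)
    (hC : ∀ l ∈ C, ¬ (l : ℕ) ∣ a) : ev φ a = ∏ l ∈ C, φ l (a : ZMod (l : ℕ)) := by
  unfold ev
  refine finprod_mem_eq_prod_of_inter_mulSupport_eq _ ?_
  ext l
  simp only [Set.mem_inter_iff, Function.mem_mulSupport, Finset.mem_coe]
  refine ⟨fun h1 => ⟨h h1.1, h1.2⟩, fun h1 => ⟨?_, h1.2⟩⟩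
  obtain ⟨u, hu⟩ := unit_of l a (hC l h1.1)
  exact sup_of_ne (x := u) (by rw [hu]; exact h1.2)

theorem not_dvd {φ : Ch} {p l : Nat.Primes} (hp : p ∉ sup φ) (hl : l ∈ sup φ) :
    ¬ (l : ℕ) ∣ (p : ℕ) := by
  intro h
  have h1 : (l : ℕ) = (p : ℕ) := (Nat.prime_dvd_prime_iff_eq l.2 p.2).mp h
  have h2 : l = p := Subtype.ext h1
  exact hp (h2 ▸ hl)

theorem sup_pow (φ : Ch) (i : ℕ) : sup (φ ^ i) ⊆ sup φ := by
  intro l h h1
  apply h
  rw [Pi.pow_apply, h1, one_pow]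

theorem ev_pow (φ : Ch) (p : Nat.Primes) (i : ℕ) (hf : (sup φ).Finite) (hp : p ∉ sup φ) :
    ev (φ ^ i) (p : ℕ) = ev φ (p : ℕ) ^ i := by
  have hC : ∀ l ∈ hf.toFinset, ¬ (l : ℕ) ∣ (p : ℕ) := fun l hl =>
    not_dvd hp (hf.mem_toFinset.mp hl)
  have hs : sup φ ⊆ hf.toFinset := by
    rw [Set.Finite.coe_toFinset]
  rw [ev_prod φ hf.toFinset p hs hC, ev_prod (φ ^ i) hf.toFinset p ((sup_pow φ i).trans hs) hC,
    ← Finset.prod_pow]
  refine Finset.prod_congr rfl fun l hl => ?_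
  obtain ⟨u, hu⟩ := unit_of l p (hC l hl)
  rw [← hu, Pi.pow_apply, MulChar.pow_apply_coe]

theorem ev_one (a : ℕ) : ev 1 a = 1 := by
  have h : sup (1 : Ch) = ∅ := by
    ext l
    simp [sup]
  unfold ev
  rw [h, finprod_mem_empty]

theorem pair_one (u : (l : Nat.Primes) → (ZMod (l : ℕ))ˣ) : pair 1 u = 1 := by
  unfold pair
  refine finprod_eq_one_of_forall_eq_one fun l => ?_
  rw [Pi.one_apply, MulChar.one_apply_coe]

theorem supp (φ : Ch) (u : (l : Nat.Primes) → (ZMod (l : ℕ))ˣ) (hf : (sup φ).Finite) :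
    (Function.mulSupport fun l : Nat.Primes => φ l (u l : ZMod (l : ℕ))).Finite :=
  hf.subset fun _ hl => sup_of_ne hl

theorem pair_pow (φ : Ch) (u : (l : Nat.Primes) → (ZMod (l : ℕ))ˣ) (hf : (sup φ).Finite)
    (i : ℕ) : pair (φ ^ i) u = pair φ u ^ i := by
  unfold pair
  rw [finprod_pow (supp φ u hf)]
  refine finprod_congr fun l => ?_
  rw [Pi.pow_apply, MulChar.pow_apply_coe]

end EvpN

theorem t_evp : EVPStmt := by
  refine ⟨EvpN.ev_prod, EvpN.ev_pow, ?_, ?_, ?_⟩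
  · intro φ p n hf hp hn
    have h1 : ev φ (p : ℕ) ^ n = 1 := by
      rw [← EvpN.ev_pow φ p n hf hp, hn, EvpN.ev_one]
    exact ⟨h1, fun h0 => Complex.norm_eq_one_of_pow_eq_one h1 h0.ne'⟩
  · intro φ χ u v hφ hχ
    refine ⟨?_, ?_, EvpN.pair_pow φ u hφ⟩
    · unfold pair
      rw [← finprod_mul_distrib (EvpN.supp φ u hφ) (EvpN.supp χ u hχ)]
      refine finprod_congr fun l => ?_
      rw [Pi.mul_apply, MulChar.mul_apply]
    · unfold pair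
      rw [← finprod_mul_distrib (EvpN.supp φ u hφ) (EvpN.supp φ v hφ)]
      refine finprod_congr fun l => ?_
      rw [Pi.mul_apply, Units.val_mul, map_mul]
  · intro φ u n hf h0 hn
    have h1 : pair φ u ^ n = 1 := by
      rw [← EvpN.pair_pow φ u hf n, hn, EvpN.pair_one]
    exact ⟨h1, Complex.norm_eq_one_of_pow_eq_one h1 h0.ne'⟩

end Pool.DPC
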