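import Pool.Agent.H29.DPC.S2

/-!
# DPC, module GAL
-/

set_option autoImplicit false

namespace Pool.DPC

open Polynomial Complex

namespace GalN

theorem rootSet_eq (k : IntermediateField ℚ ℂ) (n : ℕ) (hn : 0 < n) :
    (X ^ n - 1 : (k : Type)[X]).rootSet ℂ = {z : ℂ | z ^ n = 1} := by
  ext z
  have h0 : (X ^ n - 1 : (k : Type)[X]) ≠ 0 := by
    rw [← C_1]
    exact X_pow_sub_C_ne_zero hn 1
  rw [mem_rootSet]
  change _ ↔ z ^ n = 1
  constructor
  · intro h
    have h1 := h.2
    simp only [map_sub, map_pow, aeval_X, map_one] at h1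
    exact sub_eq_zero.mp h1
  · intro h
    refine ⟨h0, ?_⟩
    simp only [map_sub, map_pow, aeval_X, map_one, h, sub_self]

end GalN

theorem t_gal : GALStmt := by
  intro k n hn
  have hs : (X ^ n - 1 : (k : Type)[X]).IsSplittingField k (cyc k n) := by
    have h := IntermediateField.adjoin_rootSet_isSplittingField (K := k) (L := ℂ)
      (p := (X ^ n - 1 : (k : Type)[X])) (IsAlgClosed.splits _)
    rw [GalN.rootSet_eq k n hn] at h
    exact h
  have : NeZero n := ⟨hn.ne'⟩
  have hsep : (X ^ n - 1 : (k : Type)[X]).Separable :=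
    X_pow_sub_one_separable_iff.mpr (Nat.cast_ne_zero.mpr hn.ne')
  have hfd : FiniteDimensional k (cyc k n) :=
    Polynomial.IsSplittingField.finiteDimensional (cyc k n) (X ^ n - 1 : (k : Type)[X])
  have hgal : IsGalois k (cyc k n) :=
    IsGalois.of_separable_splitting_field (p := (X ^ n - 1 : (k : Type)[X])) hsep
  have : Normal k (cyc k n) := hgal.to_normal
  refine ⟨hgal, hfd, ?_, ?_, ?_⟩
  · intro g
    have hζ : IsPrimitiveRoot (Complex.exp (2 * Real.pi * Complex.I / n)) n :=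
      Complex.isPrimitiveRoot_exp n hn.ne'
    have hmem : Complex.exp (2 * Real.pi * Complex.I / n) ∈ cyc k n :=
      IntermediateField.subset_adjoin _ _ hζ.pow_eq_one
    obtain ⟨ζ, hζ0⟩ : ∃ ζ : cyc k n, (ζ : ℂ) = Complex.exp (2 * Real.pi * Complex.I / n) :=
      ⟨⟨_, hmem⟩, rfl⟩
    rw [← hζ0] at hζ
    have hζ1 : IsPrimitiveRoot ζ n := IsPrimitiveRoot.of_map_of_injective (f := (cyc k n).val)
      hζ (cyc k n).val.injective
    have hg : IsPrimitiveRoot (g ζ) n := hζ1.map_of_injective (f := g) g.injective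
    obtain ⟨s, _, hs1, hs2⟩ := (hζ1.isPrimitiveRoot_iff (ξ := g ζ)).mp hg
    refine ⟨s, hs1, ?_⟩
    intro z hz
    obtain ⟨j, _, rfl⟩ := hζ1.eq_pow_of_pow_eq_one hz
    rw [map_pow, ← hs2, ← pow_mul, ← pow_mul, mul_comm]
  · intro f psi hpsi
    unfold valueField
    rw [IntermediateField.adjoin_le_iff]
    rintro _ ⟨a, rfl⟩
    by_cases ha : IsUnit a
    · refine IntermediateField.subset_adjoin _ _ ?_
      change psi a ^ n = 1
      rw [← MulChar.pow_apply' psi hn.ne', hpsi, MulChar.one_apply ha]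
    · rw [psi.map_nonunit ha]
      exact zero_mem _
  · intro K hK g
    have hint : ∀ s ∈ {z : ℂ | z ^ n = 1}, IsIntegral k s ∧
        ((minpoly k s).map (algebraMap k ℂ)).Splits := by
      intro s hs'
      refine ⟨⟨X ^ n - 1, monic_X_pow_sub_C 1 hn.ne', ?_⟩, IsAlgClosed.splits _⟩
      have hs2 : s ^ n = 1 := hs'
      simp [hs2]
    obtain ⟨φ, hφ⟩ := IntermediateField.exists_algHom_adjoin_of_splits hint g hK
    refine ⟨Normal.algHomEquivAut k ℂ (cyc k n) φ, ?_⟩
    intro x h h'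
    have h1 : (Normal.algHomEquivAut k ℂ (cyc k n)).symm
      (Normal.algHomEquivAut k ℂ (cyc k n) φ) = φ := Equiv.symm_apply_apply _ _
    have h2 := DFunLike.congr_fun h1 (⟨x, h'⟩ : cyc k n)
    have h3 := DFunLike.congr_fun hφ ⟨x, h⟩
    exact h2.trans h3

end Pool.DPC
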