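import Pool.Agent.H29.DPC.S2

/-!
# DPC, module GRF
-/

set_option autoImplicit false

namespace Pool.DPC

open Polynomial Complex

namespace GrfN

/-- The factor in the field `k(mu_n)`. -/
noncomputable def fac {k : IntermediateField ℚ ℂ} {n : ℕ} (d : ℕ) (P : ℕ → ℚ[X])
    (l : Nat.Primes) (T : cyc k n) : cyc k n :=
  (-1) ^ d * (T⁻¹) ^ d * (P (l : ℕ)).eval₂ (Rat.castHom (cyc k n))
    (T * (((l : ℕ) : cyc k n))⁻¹)

theorem fac_val {k : IntermediateField ℚ ℂ} {n : ℕ} (d : ℕ) (P : ℕ → ℚ[X])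
    (l : Nat.Primes) (T : cyc k n) : ((fac d P l T : cyc k n) : ℂ) = Rf d P l (T : ℂ) := by
  have h : ((fac d P l T : cyc k n) : ℂ) = (cyc k n).val (fac d P l T) := rfl
  rw [h]
  unfold fac Rf
  rw [map_mul, map_mul, map_pow, map_pow, map_neg, map_one, map_inv₀]
  have h1 : (cyc k n).val ((P (l : ℕ)).eval₂ (Rat.castHom (cyc k n))
      (T * (((l : ℕ) : cyc k n))⁻¹)) =
      (P (l : ℕ)).eval₂ (((cyc k n).val : cyc k n →+* ℂ).comp (Rat.castHom (cyc k n)))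
        ((cyc k n).val (T * (((l : ℕ) : cyc k n))⁻¹)) :=
    Polynomial.hom_eval₂ (P (l : ℕ)) (Rat.castHom (cyc k n)) ((cyc k n).val : cyc k n →+* ℂ) _
  rw [h1, aeval_def, map_mul, map_inv₀, map_natCast]
  have h2 : ((cyc k n).val : cyc k n →+* ℂ).comp (Rat.castHom (cyc k n)) = algebraMap ℚ ℂ :=
    RingHom.ext_rat _ _
  rw [h2]
  rfl

theorem fac_map {k : IntermediateField ℚ ℂ} {n : ℕ} (d : ℕ) (P : ℕ → ℚ[X])
    (l : Nat.Primes) (T : cyc k n) (g : cyc k n ≃ₐ[k] cyc k n) :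
    g (fac d P l T) = fac d P l (g T) := by
  unfold fac
  rw [map_mul, map_mul, map_pow, map_pow, map_neg, map_one, map_inv₀]
  have h1 : g ((P (l : ℕ)).eval₂ (Rat.castHom (cyc k n)) (T * (((l : ℕ) : cyc k n))⁻¹)) =
      (P (l : ℕ)).eval₂ ((g : cyc k n →+* cyc k n).comp (Rat.castHom (cyc k n)))
        (g (T * (((l : ℕ) : cyc k n))⁻¹)) :=
    Polynomial.hom_eval₂ (P (l : ℕ)) (Rat.castHom (cyc k n)) (g : cyc k n →+* cyc k n) _
  rw [h1, map_mul, map_inv₀, map_natCast]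
  have h2 : (g : cyc k n →+* cyc k n).comp (Rat.castHom (cyc k n)) = Rat.castHom (cyc k n) :=
    RingHom.ext_rat _ _
  rw [h2]

end GrfN

theorem t_grf (hEVP : EVPStmt) (hSUP : SUPStmt) : GRFStmt := by
  intro k n d P C hn hC g s hg φ hφ
  obtain ⟨s1, s2, s3, s4, s5, s6, s7, s8, s9⟩ := hSUP
  have hsup : sup (φ ^ s) = sup φ :=
    s4 φ s (Nat.Coprime.coprime_dvd_right (s8 n φ hn hφ).2 hg.1)
  have hex : ∀ l : Nat.Primes, ∃ r : cyc k n, l ∉ sup φ →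
      (r : ℂ) = Rf d P l (ev φ (l : ℕ)) ∧
      ((g r : cyc k n) : ℂ) = Rf d P l (ev (φ ^ s) (l : ℕ)) := by
    intro l
    by_cases hl : l ∈ sup φ
    · exact ⟨1, fun h => absurd hl h⟩
    have h1 := (hEVP.2.2.1 φ l n hφ.fin hl hφ.exp).1
    have hmem : ev φ (l : ℕ) ∈ cyc k n := IntermediateField.subset_adjoin _ _ h1
    obtain ⟨T, hT⟩ : ∃ T : cyc k n, (T : ℂ) = ev φ (l : ℕ) := ⟨⟨_, hmem⟩, rfl⟩
    have hTn : T ^ n = 1 := by
      apply Subtype.ext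
      rw [← hT] at h1
      exact h1
    refine ⟨GrfN.fac d P l T, fun _ => ⟨?_, ?_⟩⟩
    · rw [GrfN.fac_val, hT]
    · rw [GrfN.fac_map, GrfN.fac_val, hg.2 T hTn, hEVP.2.1 φ l s hφ.fin hl, ← hT]
      rfl
  choose r hr using hex
  have hF : (C \ sup φ).Finite := hC.subset Set.diff_subset
  refine ⟨∏ l ∈ hF.toFinset, r l, ?_, ?_⟩
  · rw [finprod_mem_eq_finite_toFinset_prod _ hF]
    have h : ((∏ l ∈ hF.toFinset, r l : cyc k n) : ℂ) =
      (cyc k n).val (∏ l ∈ hF.toFinset, r l) := rfl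
    rw [h, map_prod]
    refine Finset.prod_congr rfl fun l hl => ?_
    exact (hr l ((hF.mem_toFinset.mp hl).2)).1
  · rw [hsup, finprod_mem_eq_finite_toFinset_prod _ hF]
    have h : ((g (∏ l ∈ hF.toFinset, r l) : cyc k n) : ℂ) =
      (cyc k n).val (g (∏ l ∈ hF.toFinset, r l)) := rfl
    rw [h, map_prod, map_prod]
    refine Finset.prod_congr rfl fun l hl => ?_
    exact (hr l ((hF.mem_toFinset.mp hl).2)).2

end Pool.DPC
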