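import Pool.Agent.H29.DPC.S2

/-!
# DPC, module STC
-/

set_option autoImplicit false

namespace Pool.DPC

open Polynomial Complex

theorem t_stc (hMID : MIDStmt) (hDIR : DIRStmt) (hAUX : AUXStmt) (hORT : ORTStmt)
    (hLM1 : LM1Stmt) (hEVP : EVPStmt) (hSUP : SUPStmt) : STCStmt := by
  intro n d W R hn hnd hR hE1 hE2 φ q hφ hq2 hφq hIH
  obtain ⟨s1, s2, s3, s4, s5, s6, s7, s8, s9⟩ := hSUP
  obtain ⟨m, hm⟩ : ∃ m, m = orderOf φ := ⟨_, rfl⟩
  obtain ⟨hm0, hmn⟩ := s8 n φ hn hφ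
  rw [← hm] at hm0 hmn hq2 hIH
  have hqp : (q : ℕ).Prime := q.2
  have hqm : (q : ℕ) ∣ m := (dvd_pow_self (q : ℕ) two_ne_zero).trans hq2
  have hm1 : 1 < m := lt_of_lt_of_le hqp.one_lt (Nat.le_of_dvd hm0 hqm)
  have hmain : ∀ i ∈ un m, W (φ ^ i) = 0 := by
    have h := hORT d φ q (fun i => W (φ ^ i)) hφ.fin (hm ▸ hm0)
      (hm ▸ Nat.Coprime.coprime_dvd_left hmn hnd) hφq ?_
    · rw [← hm] at h
      exact h
    rw [← hm]
    intro u hu
    have hx : ‖pair φ u‖ = 1 := (hEVP.2.2.2.2 φ u n hφ.fin hn hφ.exp).2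
    have h1 := hLM1 d m R (fun i => W (φ ^ i)) (fun _ => 0) (pair φ u) (pair φ u) hR hx hx ?_
    · rw [h1]
      simp
    intro B
    obtain ⟨p, hpB, hp4, hpC, hpu⟩ := hDIR (sup φ) hφ.fin u q hu B
    obtain ⟨χ, hχ, hχs, hχo⟩ := hAUX n q hqp (hqm.trans hmn) p hp4
    refine ⟨p, hpB, ?_⟩
    have hdis : Disjoint (sup φ) (sup χ) := by
      rw [hχs]
      exact Set.disjoint_singleton_right.mpr hpC
    have h2 := hMID n W R hn hE1 hE2 φ χ q hφ hχ hdis hqp hχo (hm ▸ hqm)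
      (fun ψ h3 h4 => hIH ψ h3 (hm ▸ h4))
    rw [← hm] at h2
    have h3 : ∑ i ∈ (Finset.range m).filter (fun i => (q : ℕ) ∣ i),
        ∑ b ∈ Finset.Ico 1 (q : ℕ), wl W R (sup φ ∪ sup χ) (φ ^ i * χ ^ b) = 0 := by
      refine Finset.sum_eq_zero fun i hi => Finset.sum_eq_zero fun b _ => ?_
      obtain ⟨_, hqi⟩ := Finset.mem_filter.mp hi
      have h4 : (φ ^ i * χ ^ b) ^ (m / (q : ℕ)) = 1 := by
        rw [mul_pow, ← pow_mul, ← pow_mul]
        have h5 : φ ^ (i * (m / (q : ℕ))) = 1 := by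
          obtain ⟨c, rfl⟩ := hqi
          rw [mul_assoc, mul_left_comm, Nat.mul_div_cancel' hqm, mul_comm, pow_mul, hm,
            pow_orderOf_eq_one, one_pow]
        have h6 : χ ^ (b * (m / (q : ℕ))) = 1 := by
          obtain ⟨c, hc⟩ := hq2
          have h7 : m / (q : ℕ) = q * c := by
            rw [hc, sq, mul_assoc, Nat.mul_div_cancel_left _ hqp.pos]
          rw [h7, mul_left_comm, pow_mul]
          rw [← hχo, pow_orderOf_eq_one, one_pow]
        rw [h5, h6, mul_one]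
      have h5 : 0 < m / (q : ℕ) := Nat.div_pos (Nat.le_of_dvd hm0 hqm) hqp.pos
      have h6 : orderOf (φ ^ i * χ ^ b) < m :=
        lt_of_le_of_lt (orderOf_le_of_pow_eq_one h5 h4) (Nat.div_lt_self hm0 hqp.one_lt)
      have h7 : W (φ ^ i * χ ^ b) = 0 :=
        hIH _ (s6 n _ _ (s7 n i φ hφ) (s7 n b χ hχ)) h6
      unfold wl
      rw [h7, zero_mul]
    rw [h3, add_zero] at h2
    simp only [zero_mul, Finset.sum_const_zero]
    rw [← h2]
    refine Finset.sum_congr rfl fun i _ => ?_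
    rw [hχs, finprod_mem_singleton, hpu φ (le_refl _)]
  have h1 : (1 : ℕ) ∈ un m := by
    unfold un
    rw [Finset.mem_filter, Finset.mem_range]
    exact ⟨hm1, Nat.coprime_one_left m⟩
  have h2 := hmain 1 h1
  rwa [pow_one] at h2

end Pool.DPC
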